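import Pool.Agent.W42.RG.Defs

/-!
# Small elements of the stabiliser are in its Lie algebra
-/

set_option autoImplicit false

namespace Pool.Agent.W21.LX

open Filter Topology Pool.Agent.W42.RG

section

variable {V M : Type} [NormedAddCommGroup V] [NormedSpace ℝ V] [MetricSpace M]
  {br : V →L[ℝ] V →L[ℝ] V} {Φ : V → M → M}

theorem nat_fix (hI : Iso br Φ) {p : M} {U : V} (h : Φ U p = p) (k : ℕ) :
    Φ ((k : ℝ) • U) p = p := by
  induction k with
  | zero => rw [Nat.cast_zero, zero_smul]; exact hI.zero p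
  | succ k ih =>
    have := hI.line U k 1 p
    rw [one_smul, h, ih] at this
    push_cast
    exact this

theorem int_fix (hI : Iso br Φ) {p : M} {U : V} (h : Φ U p = p) (k : ℤ) :
    Φ ((k : ℝ) • U) p = p := by
  obtain ⟨n, rfl | rfl⟩ := k.eq_nat_or_neg
  · exact_mod_cast nat_fix hI h n
  · have h1 := hI.line U (-(n : ℝ)) n p
    rw [neg_add_cancel, zero_smul, hI.zero, nat_fix hI h n] at h1
    push_cast
    exact h1.symm

end

theorem t_SMALL (h : S_SUB) : S_SMALL := by
  intro V M _ _ _ _ br Φ hI p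
  obtain ⟨S, hS⟩ := h V M br Φ hI p
  by_contra hcon
  push Not at hcon
  have hn : ∀ n : ℕ, ∃ Y : V, ‖Y‖ ≤ 1 / ((n : ℝ) + 1) ∧ Φ Y p = p ∧ Y ∉ st Φ p :=
    fun n => hcon _ (by positivity)
  choose Y hY1 hY2 hY3 using hn
  obtain ⟨Q, hQ⟩ := Submodule.exists_isCompl S
  set P : V →L[ℝ] V := LinearMap.toContinuousLinearMap (S.projection Q hQ) with hP
  have hPS : ∀ v, P v ∈ S := fun v => Submodule.projection_apply_mem hQ v
  have hPQ : ∀ v, v - P v ∈ Q := fun v => Submodule.sub_projection_mem hQ v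
  have hY0 : Tendsto Y atTop (𝓝 0) := by
    rw [tendsto_zero_iff_norm_tendsto_zero]
    exact squeeze_zero (fun _ => norm_nonneg _) hY1 tendsto_one_div_add_atTop_nhds_zero_nat
  set s : ℕ → V := fun n => P (Y n) with hs
  set m : ℕ → V := fun n => Y n - s n with hm
  have hs0 : Tendsto s atTop (𝓝 0) := by
    have := (P.continuous.tendsto 0).comp hY0
    rwa [map_zero] at this
  have hm0 : Tendsto m atTop (𝓝 0) := by
    have := hY0.sub hs0
    rwa [sub_zero] at this
  have hmne : ∀ n, m n ≠ 0 := by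
    intro n h0
    apply hY3 n
    rw [← hS, SetLike.mem_coe]
    have : Y n = s n := sub_eq_zero.1 h0
    rw [this]
    exact hPS _
  have hmnorm : ∀ n, 0 < ‖m n‖ := fun n => norm_pos_iff.2 (hmne n)
  obtain ⟨C, ρ, hρ, hloc⟩ := hI.loc
  -- the unit vectors
  have hcpt : IsCompact (Metric.sphere (0 : V) 1) := isCompact_sphere 0 1
  obtain ⟨μ, hμ, φ, hφ, hlim⟩ := hcpt.tendsto_subseq (x := fun n => (‖m n‖)⁻¹ • m n) (fun n => by
    rw [mem_sphere_zero_iff_norm, norm_smul, norm_inv, norm_norm, inv_mul_cancel₀ (hmnorm n).ne'])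
  have hμQ : μ ∈ Q := by
    have hcl : IsClosed (Q : Set V) := Submodule.closed_of_finiteDimensional Q
    refine hcl.mem_of_tendsto hlim (Eventually.of_forall fun n => ?_)
    exact Q.smul_mem _ (hPQ _)
  -- the elements `U n`
  have hev : ∀ᶠ n in atTop, ‖Y n‖ ≤ ρ ∧ ‖-s n‖ ≤ ρ := by
    have h1 : ∀ᶠ n in atTop, ‖Y n‖ < ρ := by
      have := hY0.norm
      rw [norm_zero] at this
      exact this.eventually (gt_mem_nhds hρ)
    have h2 : ∀ᶠ n in atTop, ‖s n‖ < ρ := by
      have := hs0.norm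
      rw [norm_zero] at this
      exact this.eventually (gt_mem_nhds hρ)
    filter_upwards [h1, h2] with n h1 h2
    exact ⟨h1.le, by rw [norm_neg]; exact h2.le⟩
  have hU : ∀ n, ∃ U : V, (‖Y n‖ ≤ ρ ∧ ‖-s n‖ ≤ ρ) → Φ U p = p ∧
      ‖U - m n‖ ≤ |C| * (‖br‖ * ‖m n‖ * ‖s n‖) := by
    intro n
    by_cases hc : ‖Y n‖ ≤ ρ ∧ ‖-s n‖ ≤ ρ
    · obtain ⟨U, hU1, hU2⟩ := hloc (Y n) (-s n) hc.1 hc.2
      refine ⟨U, fun _ => ⟨?_, ?_⟩⟩
      · have h1 : Φ (-s n) p = p := by
          have h2 : -s n ∈ st Φ p := by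
            rw [← hS, SetLike.mem_coe]
            exact S.neg_mem (hPS _)
          have := h2 1
          rwa [one_smul] at this
        rw [← hU2 p, h1, hY2]
      · have e1 : U - m n = U - Y n - -s n := by
          simp only [hm]
          abel
        have e2 : br (Y n) (-s n) = -(br (m n) (s n)) := by
          have e3 : Y n = m n + s n := by simp only [hm]; abel
          rw [map_neg]
          congr 1
          conv_lhs => rw [e3]
          rw [map_add, ContinuousLinearMap.add_apply, hI.alt, add_zero]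
        rw [e1]
        refine hU1.trans ?_
        rw [e2, norm_neg]
        have h4 : ‖br (m n) (s n)‖ ≤ ‖br‖ * ‖m n‖ * ‖s n‖ := br.le_opNorm₂ _ _
        calc C * ‖br (m n) (s n)‖ ≤ |C| * ‖br (m n) (s n)‖ :=
              mul_le_mul_of_nonneg_right (le_abs_self C) (norm_nonneg _)
          _ ≤ _ := mul_le_mul_of_nonneg_left h4 (abs_nonneg _)
    · exact ⟨0, fun h => absurd h hc⟩
  choose U hU using hU
  -- `U n / ‖m n‖` converges
  have hφt : Tendsto φ atTop atTop := hφ.tendsto_atTop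
  have hUlim : Tendsto (fun n => (‖m (φ n)‖)⁻¹ • U (φ n)) atTop (𝓝 μ) := by
    have h1 : Tendsto (fun n => (‖m (φ n)‖)⁻¹ • (U (φ n) - m (φ n))) atTop (𝓝 0) := by
      rw [tendsto_zero_iff_norm_tendsto_zero]
      have h2 : Tendsto (fun n => |C| * ‖br‖ * ‖s (φ n)‖) atTop (𝓝 0) := by
        have := ((hs0.norm).const_mul (|C| * ‖br‖)).comp hφt
        rw [norm_zero, mul_zero] at this
        exact this
      refine squeeze_zero' (Eventually.of_forall fun _ => norm_nonneg _) ?_ h2
      filter_upwards [hφt.eventually hev] with n hn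
      rw [norm_smul, norm_inv, norm_norm, inv_mul_le_iff₀ (hmnorm _)]
      refine ((hU (φ n)) hn).2.trans (le_of_eq ?_)
      ring
    have h3 := h1.add hlim
    rw [zero_add] at h3
    refine h3.congr fun n => ?_
    simp only [Function.comp]
    rw [← smul_add, sub_add_cancel]
  -- the line through `μ` fixes `p`
  have hfix : ∀ t : ℝ, Φ (t • μ) p = p := by
    intro t
    have h1 : Tendsto (fun n => ((⌊t / ‖m (φ n)‖⌋ : ℤ) : ℝ) * ‖m (φ n)‖) atTop (𝓝 t) := by
      rw [tendsto_iff_norm_sub_tendsto_zero]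
      have h2 : Tendsto (fun n => ‖m (φ n)‖) atTop (𝓝 0) := by
        have := (hm0.norm).comp hφt
        rw [norm_zero] at this
        exact this
      refine squeeze_zero (fun _ => norm_nonneg _) (fun n => ?_) h2
      have h3 := Int.floor_le (t / ‖m (φ n)‖)
      have h4 := Int.lt_floor_add_one (t / ‖m (φ n)‖)
      have hpos := hmnorm (φ n)
      rw [le_div_iff₀ hpos] at h3
      rw [div_lt_iff₀ hpos] at h4
      rw [Real.norm_eq_abs, abs_le]
      constructor <;> nlinarith
    have h5 : Tendsto (fun n => ((⌊t / ‖m (φ n)‖⌋ : ℤ) : ℝ) • U (φ n)) atTop (𝓝 (t • μ)) := by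
      refine (h1.smul hUlim).congr fun n => ?_
      rw [smul_smul, mul_assoc, mul_inv_cancel₀ (hmnorm _).ne', mul_one]
    have h6 : Tendsto (fun n => Φ (((⌊t / ‖m (φ n)‖⌋ : ℤ) : ℝ) • U (φ n)) p) atTop
        (𝓝 (Φ (t • μ) p)) := ((hI.cont p).tendsto _).comp h5
    have h7 : Tendsto (fun _ : ℕ => p) atTop (𝓝 (Φ (t • μ) p)) := by
      refine h6.congr' ?_
      filter_upwards [hφt.eventually hev] with n hn
      exact int_fix hI ((hU (φ n)) hn).1 _
    exact tendsto_nhds_unique h7 tendsto_const_nhds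
  have hμS : μ ∈ S := by
    have : μ ∈ (S : Set V) := by rw [hS]; exact hfix
    exact this
  have h0 : μ = 0 := by
    have := Submodule.disjoint_def.1 hQ.disjoint μ hμS hμQ
    exact this
  rw [mem_sphere_zero_iff_norm, h0, norm_zero] at hμ
  exact zero_ne_one hμ

end Pool.Agent.W21.LX
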